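import Pool.Agent.Helper11.PP.Inf

set_option autoImplicit false

/-!
# Module I3 of MP_505789_lc: the generic sequence of systems
-/

namespace Pool.Agent.Helper34.PP

open Cardinal Filter Set
open Pool.Agent.H32.PP (MAsc CI wf_rec mk_Iio_CI)
open Pool.Agent.Helper11.PP

instance : Countable Sys := by
  have h : Function.Injective (fun p : Sys => (p.i, p.N, p.c)) := by
    intro p q h
    cases p
    cases q
    simp_all
  exact h.countable

instance : Nonempty Sys := ⟨⟨0, 0, 0⟩⟩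

lemma G_mono {G : ℕ → ℕ → ℕ → ℕ} (hG : IsG G) {a b : ℕ} (hab : a ≤ b) (h i : ℕ) :
    G a h i ≤ G b h i := by
  induction hab with
  | refl => exact le_rfl
  | step _ ih => exact ih.trans (hG.mono _ h i)

/-- finitely many solves -/
lemma solves (htrans : ST_trans) {G : ℕ → ℕ → ℕ → ℕ} (hG : IsG G) (h : ℕ) {β : Type}
    (C : β → Set ℕ) (ψ : β → Finset ℕ → Set ℕ) (l : List β) :
    ∀ (m : ℕ) (p : Sys), Valid h p → G (m + l.length) h p.i ≤ p.N →
      ∃ q : Sys, Valid h q ∧ (q = p ∨ Ref h q p) ∧ q.i = p.i ∧ G m h p.i ≤ q.N ∧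
        ∀ b ∈ l, ∃ p' : Sys, Valid h p' ∧ (q = p' ∨ Ref h q p') ∧ Ref h p' p ∧ p'.i = p.i ∧
          Good h p' (C b) (ψ b) := by
  induction l with
  | nil =>
    intro m p hp hN
    exact ⟨p, hp, Or.inl rfl, rfl, by simpa using hN, by simp⟩
  | cons b l ih =>
    intro m p hp hN
    have hN' : G ((m + l.length) + 1) h p.i ≤ p.N := by
      have : m + (b :: l).length = (m + l.length) + 1 := by simp; ring
      rwa [this] at hN
    obtain ⟨q, hq, hqp, hqi, hqN, hgood⟩ := hG.solve (m + l.length) h p hp hN' (C b) (ψ b)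
    rw [← hqi] at hqN
    obtain ⟨r, hr, hrq, hri, hrN, hall⟩ := ih m q hq hqN
    have hrp : Ref h r p := by
      rcases hrq with rfl | hrq
      · exact hqp
      · exact htrans h r q p hrq hqp
    refine ⟨r, hr, Or.inr hrp, hri.trans hqi, by rwa [hqi] at hrN, ?_⟩
    intro b' hb'
    rcases List.mem_cons.mp hb' with rfl | hb'
    · exact ⟨q, hq, hrq, hqp, hqi, hgood⟩
    · obtain ⟨p', h1, h2, h3, h4, h5⟩ := hall b' hb'
      exact ⟨p', h1, h2, htrans h p' q p h3 hqp, h4.trans hqi, h5⟩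

/-- the conditions at stage `δ` -/
def QQ (U : Ultrafilter ℕ) (G : ℕ → ℕ → ℕ → ℕ) (CC : CI → ℕ → Set ℕ)
    (PP : CI → ℕ → Finset ℕ → Set ℕ) (δ : CI) (g : (γ : CI) → γ < δ → ℕ → Sys)
    (q : ℕ → Sys) : Prop :=
  (∀ᶠ n in (U : Filter ℕ), Valid n (q n)) ∧
  (∀ γ (h : γ < δ), ∀ᶠ n in (U : Filter ℕ),
    Ref n (q n) (g γ h n) ∧ 2 * (g γ h n).i ≤ (q n).i) ∧
  (∀ k, ∀ᶠ n in (U : Filter ℕ), k ≤ (q n).i ∧ G k n (q n).i ≤ (q n).N) ∧
  (∀ β γ (h : γ < δ), β ≤ γ → ∀ᶠ n in (U : Filter ℕ), ∃ p' : Sys,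
    Valid n p' ∧ Ref n (q n) p' ∧ Ref n p' (g γ h n) ∧ p'.i = (g γ h n).i ∧
      Good n p' (CC β n) (PP β n))

/-- the index type of the conditions at stage `δ` -/
abbrev Idx (δ : CI) : Type := (Unit ⊕ ℕ) ⊕ (Iio δ ⊕ (Iio δ × Iio δ))

lemma mk_Idx (δ : CI) : #(Idx δ) < 𝔠 := by
  have h1 := mk_Iio_CI δ
  have h2 : #(Iio δ × Iio δ) < 𝔠 := by
    rw [Cardinal.mk_prod]
    simp only [Cardinal.lift_id]
    exact Cardinal.mul_lt_of_lt aleph0_le_continuum h1 h1
  have h3 : #(Iio δ ⊕ (Iio δ × Iio δ)) < 𝔠 := by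
    rw [Cardinal.mk_sum]
    simp only [Cardinal.lift_id]
    exact Cardinal.add_lt_of_lt aleph0_le_continuum h1 h2
  have h4 : #(Unit ⊕ ℕ) < 𝔠 := by
    have : #(Unit ⊕ ℕ) ≤ ℵ₀ := Cardinal.mk_le_aleph0
    exact this.trans_lt aleph0_lt_continuum
  rw [Cardinal.mk_sum]
  simp only [Cardinal.lift_id]
  exact Cardinal.add_lt_of_lt aleph0_le_continuum h4 h3

/-- the condition with a given index -/
def Cond (G : ℕ → ℕ → ℕ → ℕ) (CC : CI → ℕ → Set ℕ)
    (PP : CI → ℕ → Finset ℕ → Set ℕ) (δ : CI) (f : CI → ℕ → Sys) : Idx δ → ℕ → Sys → Prop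
  | .inl (.inl _), n, q => Valid n q
  | .inl (.inr k), n, q => k ≤ q.i ∧ G k n q.i ≤ q.N
  | .inr (.inl γ), n, q => Ref n q (f γ n) ∧ 2 * (f γ n).i ≤ q.i
  | .inr (.inr (β, γ)), n, q => (β : CI) ≤ γ → ∃ p' : Sys,
      Valid n p' ∧ Ref n q p' ∧ Ref n p' (f γ n) ∧ p'.i = (f γ n).i ∧
      Good n p' (CC β n) (PP β n)

theorem stage (htrans : ST_trans) (hex : ST_exists) {U : Ultrafilter ℕ} (hU : GoodUF U)
    {G : ℕ → ℕ → ℕ → ℕ} (hG : IsG G) (CC : CI → ℕ → Set ℕ)
    (PP : CI → ℕ → Finset ℕ → Set ℕ) (δ : CI) (f : CI → ℕ → Sys)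
    (hf : ∀ γ, γ < δ → QQ U G CC PP γ (fun c _ => f c) (f γ)) :
    ∃ q : ℕ → Sys, QQ U G CC PP δ (fun c _ => f c) q := by
  classical
  have hsat := hU.sat Sys (Idx δ) (Cond G CC PP δ f) (mk_Idx δ) (by
    intro F
    -- the numbers, the levels and the pairs that occur
    let FK : Finset ℕ := F.biUnion (fun j => match j with
      | .inl (.inr k) => {k}
      | _ => ∅)
    let FG : Finset (Iio δ) := F.biUnion (fun j => match j with
      | .inr (.inl γ) => {γ}
      | .inr (.inr (_, γ)) => {γ}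
      | _ => ∅)
    let FB : Finset (Iio δ) := F.biUnion (fun j => match j with
      | .inr (.inr (β, _)) => {β}
      | _ => ∅)
    let K : ℕ := FK.sup id
    have hK : ∀ k, (Sum.inl (Sum.inr k) : Idx δ) ∈ F → k ≤ K := by
      intro k hk
      have : k ∈ FK := Finset.mem_biUnion.mpr ⟨_, hk, by simp⟩
      exact Finset.le_sup (f := id) this
    have hGm : ∀ γ, (Sum.inr (Sum.inl γ) : Idx δ) ∈ F → γ ∈ FG := by
      intro γ h
      exact Finset.mem_biUnion.mpr ⟨_, h, by simp⟩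
    have hGm' : ∀ β γ, (Sum.inr (Sum.inr (β, γ)) : Idx δ) ∈ F → γ ∈ FG := by
      intro β γ h
      exact Finset.mem_biUnion.mpr ⟨_, h, by simp⟩
    have hBm : ∀ β γ, (Sum.inr (Sum.inr (β, γ)) : Idx δ) ∈ F → β ∈ FB := by
      intro β γ h
      exact Finset.mem_biUnion.mpr ⟨_, h, by simp⟩
    rcases FG.eq_empty_or_nonempty with hE | hne
    · refine Filter.Eventually.of_forall fun n => ?_
      obtain ⟨q, hq, hqi, hqN⟩ := hex n K (G K n K)
      refine ⟨q, ?_⟩
      intro j hj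
      match j, hj with
      | .inl (.inl _), hj => exact hq
      | .inl (.inr k), hj =>
        have h1 := hK k hj
        exact ⟨by rw [hqi]; exact h1, by rw [hqi, hqN]; exact G_mono hG h1 n K⟩
      | .inr (.inl γ), hj =>
        have := hGm γ hj
        rw [hE] at this
        simp at this
      | .inr (.inr (β, γ)), hj =>
        have := hGm' β γ hj
        rw [hE] at this
        simp at this
    · obtain ⟨m, hm, hmax⟩ := FG.exists_max_image id hne
      obtain ⟨hv, hr, hl, hg⟩ := hf m m.2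
      have hr' : ∀ᶠ n in (U : Filter ℕ), ∀ γ ∈ FG, (γ : CI) < m →
          Ref n (f m n) (f γ n) ∧ 2 * (f γ n).i ≤ (f m n).i := by
        rw [Filter.eventually_all_finset]
        intro γ _
        by_cases h : (γ : CI) < m
        · filter_upwards [hr γ h] with n hn _
          exact hn
        · exact Filter.Eventually.of_forall fun n h' => absurd h' h
      have hg' : ∀ᶠ n in (U : Filter ℕ), ∀ γ ∈ FG, ∀ β ∈ FB, (β : CI) ≤ γ → (γ : CI) < m →
          ∃ p' : Sys, Valid n p' ∧ Ref n (f m n) p' ∧ Ref n p' (f γ n) ∧ p'.i = (f γ n).i ∧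
            Good n p' (CC β n) (PP β n) := by
        rw [Filter.eventually_all_finset]
        intro γ _
        rw [Filter.eventually_all_finset]
        intro β _
        by_cases h : (β : CI) ≤ γ ∧ (γ : CI) < m
        · filter_upwards [hg β γ h.2 h.1] with n hn _ _
          exact hn
        · exact Filter.Eventually.of_forall fun n h1 h2 => absurd ⟨h1, h2⟩ h
      filter_upwards [hv, hr', hl (K + 1 + FB.toList.length), hg'] with n h1 h2 h3 h4
      obtain ⟨q, hq, hqp, hqi, hqN, hall⟩ := solves htrans hG n (fun β : Iio δ => CC β n)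
        (fun β : Iio δ => PP β n) FB.toList (K + 1) (f m n) h1 h3.2
      rw [← hqi] at hqN
      obtain ⟨Q, hQ, hQq, hQi, hQN⟩ := hG.raise K n q hq hqN
      have hQp : Ref n Q (f m n) := by
        rcases hqp with rfl | hqp
        · exact hQq
        · exact htrans n Q q _ hQq hqp
      rw [hqi] at hQi hQN
      refine ⟨Q, ?_⟩
      intro j hj
      match j, hj with
      | .inl (.inl _), hj => exact hQ
      | .inl (.inr k), hj =>
        have h5 := hK k hj
        refine ⟨by rw [hQi]; omega, ?_⟩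
        rw [hQi]
        exact (G_mono hG h5 n _).trans hQN
      | .inr (.inl γ), hj =>
        have h5 := hGm γ hj
        have h6 : (γ : CI) ≤ m := hmax γ h5
        rcases h6.lt_or_eq with h6 | h6
        · obtain ⟨h7, h8⟩ := h2 γ h5 h6
          exact ⟨htrans n Q _ _ hQp h7, by rw [hQi]; omega⟩
        · refine ⟨by rw [h6]; exact hQp, by rw [hQi, h6]⟩
      | .inr (.inr (β, γ)), hj =>
        intro hβγ
        have h5 := hGm' β γ hj
        have h5' := hBm β γ hj
        have h6 : (γ : CI) ≤ m := hmax γ h5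
        rcases h6.lt_or_eq with h6 | h6
        · obtain ⟨p', e1, e2, e3, e4, e5⟩ := h4 γ h5 β h5' hβγ h6
          exact ⟨p', e1, htrans n Q _ _ hQp e2, e3, e4, e5⟩
        · obtain ⟨p', e1, e2, e3, e4, e5⟩ := hall β (Finset.mem_toList.mpr h5')
          rw [h6]
          refine ⟨p', e1, ?_, e3, e4, e5⟩
          rcases e2 with rfl | e2
          · exact hQq
          · exact htrans n Q q _ hQq e2)
  obtain ⟨q, hq⟩ := hsat
  refine ⟨q, hq (.inl (.inl ())), ?_, ?_, ?_⟩
  · intro γ h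
    exact hq (.inr (.inl ⟨γ, h⟩))
  · intro k
    exact hq (.inl (.inr k))
  · intro β γ h hβγ
    filter_upwards [hq (.inr (.inr (⟨β, hβγ.trans_lt h⟩, ⟨γ, h⟩)))] with n hn
    exact hn hβγ

/-- **I3.** The generic sequence exists. -/
theorem gen (htrans : ST_trans) (hex : ST_exists) : ST_gen := by
  intro U hU G hG CC PP
  obtain ⟨p, hp⟩ := wf_rec (ι := CI) (X := ℕ → Sys) (· < ·) wellFounded_lt
    (QQ U G CC PP) (fun δ f hf => stage htrans hex hU hG CC PP δ f hf)
  refine ⟨p, ?_, ?_, ?_, ?_, ?_⟩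
  · exact fun δ => (hp δ).1
  · exact fun γ δ h => ((hp δ).2.1 γ h).mono fun n hn => hn.1
  · exact fun γ δ h => ((hp δ).2.1 γ h).mono fun n hn => hn.2
  · exact fun δ k => (hp δ).2.2.1 k
  · exact fun β γ δ h1 h2 => (hp δ).2.2.2 β γ h2 h1

end Pool.Agent.Helper34.PP
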