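import Pool.Agent.Helper11.PP.Inf

set_option autoImplicit false

/-!
# Module I2 of MP_505789_lc: multi-variable saturation
-/

namespace Pool.Agent.Helper34.PP

open Cardinal Filter Set
open Pool.Agent.H32.PP (MAsc CI wf_rec mk_Iio_CI)
open Pool.Agent.Helper11.PP

/-- read off the value at a key from an association list -/
noncomputable def rd {a : Type} [Nonempty a] (l : List (List Bool × a)) (k : List Bool) : a := by
  classical
  exact if h : ∃ x, (k, x) ∈ l then Classical.choose h else Classical.arbitrary a

lemma rd_mem {a : Type} [Nonempty a] {l : List (List Bool × a)} {k : List Bool} {x : a}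
    (h : (k, x) ∈ l) : (k, rd l k) ∈ l := by
  have hex : ∃ x, (k, x) ∈ l := ⟨x, h⟩
  unfold rd
  rw [dif_pos hex]
  exact Classical.choose_spec hex

/-- the key of a variable at `n` -/
def key (g : ℕ → Bool) (n : ℕ) : List Bool := List.ofFn (fun i : Fin n => g i)

lemma key_ne {g g' : ℕ → Bool} {k n : ℕ} (hk : g k ≠ g' k) (hn : k < n) : key g n ≠ key g' n := by
  intro h
  have h1 := List.ofFn_injective h
  exact hk (congrFun h1 ⟨k, hn⟩)

/-- **I2.** Multi-variable saturation. -/
theorem msat : ST_msat := by
  classical
  intro U hU a _ _ V J hV hJ F P hdep hfin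
  have hcard : #V ≤ #(ℕ → Bool) := by
    have : #(ℕ → Bool) = 𝔠 := by simp
    rw [this]
    exact hV
  obtain ⟨g⟩ := Cardinal.le_def _ _ |>.1 hcard
  obtain ⟨f, hf⟩ := hU.sat (List (List Bool × a)) J
    (fun j n l => P j n (fun v => rd l (key (g v) n))) hJ (by
      intro J0
      set E : Finset V := J0.biUnion F with hE
      have hd : ∀ᶠ n in (U : Filter ℕ), ∀ v ∈ E, ∀ w ∈ E, v ≠ w → key (g v) n ≠ key (g w) n := by
        rw [Filter.eventually_all_finset]
        intro v _
        rw [Filter.eventually_all_finset]
        intro w _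
        by_cases hvw : v = w
        · exact Filter.Eventually.of_forall fun n h => absurd hvw h
        · have h1 : g v ≠ g w := fun h => hvw (g.injective h)
          obtain ⟨k, hk⟩ := Function.ne_iff.mp h1
          filter_upwards [hU.free (k + 1)] with n hn _
          exact key_ne hk hn
      filter_upwards [hfin J0, hd] with n h1 h2
      obtain ⟨φ, hφ⟩ := h1
      refine ⟨E.toList.map (fun v => (key (g v) n, φ v)), ?_⟩
      intro j hj
      refine hdep j n φ _ ?_ (hφ j hj)
      intro v hv
      have hvE : v ∈ E := Finset.mem_biUnion.mpr ⟨j, hj, hv⟩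
      have h3 : (key (g v) n, φ v) ∈ E.toList.map (fun v => (key (g v) n, φ v)) :=
        List.mem_map.mpr ⟨v, Finset.mem_toList.mpr hvE, rfl⟩
      have h4 := rd_mem h3
      obtain ⟨w, hw, hw2⟩ := List.mem_map.mp h4
      rw [Prod.mk.injEq] at hw2
      have h5 : w = v := by
        by_contra hne
        exact h2 w (Finset.mem_toList.mp hw) v hvE hne hw2.1
      rw [← hw2.2, h5])
  exact ⟨fun v n => rd (f n) (key (g v) n), hf⟩

end Pool.Agent.Helper34.PP
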